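import Pool.Agent.helper16.P2.BZDa

/-!
# Row p2:BZD: lower bound of the area on a band
-/

set_option autoImplicit false

open scoped ContDiff Topology ComplexConjugate ENNReal
open MeasureTheory Filter Set Metric

namespace Pool.Agent.P2B

open Pool.Agent.P2 Pool.Agent.P2I

theorem BZD_nq3 (Z : E3) : nq Z = Complex.normSq (Z 0) + Complex.normSq (Z 1) + Complex.normSq (Z 2) := by
  unfold nq
  rw [Fin.sum_univ_three]

theorem BZD_nq_pos {Z : E3} (h : 0 < pq Z) : 0 < nq Z := by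
  rw [BZD_nq3]
  have := Complex.normSq_nonneg (Z 2)
  unfold pq at h
  linarith

theorem BZD_contDiff_nq {E : Type} [NormedAddCommGroup E] [NormedSpace ℝ E] (h : E → E3) (p : E)
    (hd : ContDiffAt ℝ 2 h p) (hne : 0 < nq (h p)) : ContDiffAt ℝ 2 (fun q => (1 / 2) * Real.log (nq (h q))) p := by
  have hi : ∀ i : Fin 3, ContDiffAt ℝ 2 (fun q => Complex.normSq (h q i)) p := by
    intro i
    exact ((BZD_contDiff_normSq.of_le ENat.LEInfty.out).contDiffAt).comp p (contDiffAt_pi.1 hd i)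
  have h1 : ContDiffAt ℝ 2 (fun q => nq (h q)) p := by
    unfold nq
    exact ContDiffAt.sum fun i _ => hi i
  exact contDiffAt_const.mul (h1.log hne.ne')

/-- one variable: `(1/2) log nq` of a holomorphic vector function is subharmonic -/
theorem BZD_sub (hLSE : LSE_stmt) (h : ℂ → E3) (O : Set ℂ) (hO : IsOpen O) (h0 : (0 : ℂ) ∈ O)
    (hd : DifferentiableOn ℂ h O) (i : Fin 3) (hne : h 0 i ≠ 0) :
    0 ≤ lap (fun t => (1 / 2) * Real.log (nq (h t))) 0 := by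
  have hdi : ∀ j, DifferentiableOn ℂ (fun t => h t j) O := fun j => differentiableOn_pi.1 hd j
  set O' : Set ℂ := O ∩ (fun t => h t i) ⁻¹' {0}ᶜ with hO'
  have hO'o : IsOpen O' := (hdi i).continuousOn.isOpen_inter_preimage hO isOpen_compl_singleton
  have h0' : (0 : ℂ) ∈ O' := ⟨h0, hne⟩
  have hdi' : DifferentiableOn ℂ (fun t => h t i) O' := (hdi i).mono Set.inter_subset_left
  have key := hLSE 3 (fun t j => if j = i then 0 else h t j) (fun t => Real.log ‖h t i‖) O' hO'o h0' ?_ ?_ ?_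
  · have e : (fun t => (1 / 2) * Real.log (nq (fun j => if j = i then (0 : ℂ) else h t j) +
        Real.exp (2 * Real.log ‖h t i‖))) =ᶠ[𝓝 0] fun t => (1 / 2) * Real.log (nq (h t)) := by
      filter_upwards [hO'o.mem_nhds h0'] with t ht
      have hti : h t i ≠ 0 := ht.2
      have h1 : Real.exp (2 * Real.log ‖h t i‖) = Complex.normSq (h t i) := by
        rw [BZD_log]
        have h2 : 2 * (1 / 2 * Real.log (Complex.normSq (h t i))) = Real.log (Complex.normSq (h t i)) := by ring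
        rw [h2, Real.exp_log (Complex.normSq_pos.2 hti)]
      rw [h1]
      congr 2
      rw [BZD_nq3, BZD_nq3]
      fin_cases i <;> simp <;> ring
    rw [BZD_lap_congr e] at key
    exact key
  · rw [differentiableOn_pi]
    intro j
    by_cases hj : j = i
    · simp only [hj, if_true]
      exact differentiableOn_const 0
    · simp only [hj, if_false]
      exact (hdi j).mono Set.inter_subset_left
  · intro t ht
    have h1 : ContDiffAt ℝ 2 (fun t => h t i) t := by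
      have h2 := ((hdi'.contDiffOn (n := 2) hO'o).contDiffAt (hO'o.mem_nhds ht))
      exact h2.restrict_scalars ℝ
    exact (BZD_contDiff_log (fun t => h t i) t h1 ht.2).contDiffWithinAt
  · exact (BZD_lap_log (fun t => h t i) O' 0 hO'o h0' hdi' hne).ge

theorem BZD_psh (hLSE : LSE_stmt) (F : ℂ × ℂ → E3) (O : Set (ℂ × ℂ)) (p : ℂ × ℂ) (hO : IsOpen O) (hp : p ∈ O)
    (hd : DifferentiableOn ℂ F O) (hpos : 0 < pq (F p)) (a : ℂ × ℂ) :
    0 ≤ lev (fun q => (1 / 2) * Real.log (nq (F q))) p a := by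
  unfold lev
  have hc : Continuous (fun t : ℂ => p + t • a) := (BZD_line p a).continuous
  have hdl : Differentiable ℂ (fun t : ℂ => p + t • a) := by fun_prop
  have h0 : p + (0 : ℂ) • a = p := BZD_line0 p a
  have hdd : DifferentiableOn ℂ (fun t : ℂ => F (p + t • a)) ((fun t : ℂ => p + t • a) ⁻¹' O) :=
    hd.comp hdl.differentiableOn (fun t ht => ht)
  have hmem : (0 : ℂ) ∈ (fun t : ℂ => p + t • a) ⁻¹' O := by
    rw [Set.mem_preimage, h0]; exact hp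
  by_cases h : F p 0 = 0
  · have h1 : F p 1 ≠ 0 := by
      intro h1
      unfold pq at hpos
      rw [h, h1] at hpos
      simp at hpos
    exact BZD_sub hLSE (fun t => F (p + t • a)) _ (hO.preimage hc) hmem hdd 1 (by rw [h0]; exact h1)
  · exact BZD_sub hLSE (fun t => F (p + t • a)) _ (hO.preimage hc) hmem hdd 0 (by rw [h0]; exact h)

/-! ### The frame -/

theorem BZD_frame (F : ℂ × ℂ → E3) (x0 t z : ℂ) (h : 0 < pq (F (x0, 0))) :
    nq (fv F x0 t z) = 1 + Complex.normSq t + Complex.normSq z := by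
  rw [BZD_nq3]
  unfold fv nr
  set s : ℝ := Real.sqrt (pq (F (x0, 0))) with hs
  have hss : s * s = pq (F (x0, 0)) := Real.mul_self_sqrt h.le
  have hs0 : 0 < s := Real.sqrt_pos.2 h
  have e2 : Complex.normSq ((F (x0, 0) 0 - t * conj (F (x0, 0) 1)) / (s : ℂ)) +
      Complex.normSq ((F (x0, 0) 1 + t * conj (F (x0, 0) 0)) / (s : ℂ)) = 1 + Complex.normSq t := by
    rw [map_div₀, map_div₀, Complex.normSq_ofReal, hss, ← add_div, div_eq_iff h.ne']
    unfold pq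
    simp only [Complex.normSq_apply, Complex.add_re, Complex.add_im, Complex.sub_re, Complex.sub_im, Complex.mul_re,
      Complex.mul_im, Complex.conj_re, Complex.conj_im]
    ring
  have e3 : Complex.normSq ((![(F (x0, 0) 0 - t * conj (F (x0, 0) 1)) / (s : ℂ),
      (F (x0, 0) 1 + t * conj (F (x0, 0) 0)) / (s : ℂ), z] : E3) 0) +
      Complex.normSq ((![(F (x0, 0) 0 - t * conj (F (x0, 0) 1)) / (s : ℂ),
      (F (x0, 0) 1 + t * conj (F (x0, 0) 0)) / (s : ℂ), z] : E3) 1) = 1 + Complex.normSq t := e2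
  rw [e3]
  rfl

theorem BZD_fvd (F : ℂ × ℂ → E3) (x0 : ℂ) : Differentiable ℂ (fun q : ℂ × ℂ => fv F x0 q.1 q.2) := by
  unfold fv
  rw [differentiable_pi]
  intro i
  fin_cases i
  · show Differentiable ℂ (fun q : ℂ × ℂ => (F (x0, 0) 0 - q.1 * conj (F (x0, 0) 1)) / (nr F x0 : ℂ))
    fun_prop
  · show Differentiable ℂ (fun q : ℂ × ℂ => (F (x0, 0) 1 + q.1 * conj (F (x0, 0) 0)) / (nr F x0 : ℂ))
    fun_prop
  · show Differentiable ℂ (fun q : ℂ × ℂ => q.2)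
    fun_prop

/-- partial derivatives as ordinary derivatives -/
theorem BZD_d1 (f : ℂ × ℂ → ℂ) (O : Set (ℂ × ℂ)) (p : ℂ × ℂ) (hO : IsOpen O) (hp : p ∈ O) (hd : DifferentiableOn ℂ f O) :
    HasDerivAt (fun s => f (s, p.2)) (fderiv ℂ f p (1, 0)) p.1 := by
  have h1 : HasFDerivAt f (fderiv ℂ f p) (p.1, p.2) := (hd.differentiableAt (hO.mem_nhds hp)).hasFDerivAt
  have h2 : HasDerivAt (fun s : ℂ => ((s, p.2) : ℂ × ℂ)) (1, 0) p.1 :=
    (hasDerivAt_id p.1).prodMk (hasDerivAt_const p.1 p.2)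
  exact h1.comp_hasDerivAt p.1 h2

theorem BZD_d2 (f : ℂ × ℂ → ℂ) (O : Set (ℂ × ℂ)) (p : ℂ × ℂ) (hO : IsOpen O) (hp : p ∈ O) (hd : DifferentiableOn ℂ f O) :
    HasDerivAt (fun s => f (p.1, s)) (fderiv ℂ f p (0, 1)) p.2 := by
  have h1 : HasFDerivAt f (fderiv ℂ f p) (p.1, p.2) := (hd.differentiableAt (hO.mem_nhds hp)).hasFDerivAt
  have h2 : HasDerivAt (fun s : ℂ => ((p.1, s) : ℂ × ℂ)) (0, 1) p.2 :=
    (hasDerivAt_const p.2 p.1).prodMk (hasDerivAt_id p.2)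
  exact h1.comp_hasDerivAt p.2 h2

theorem BZD (hCHN : CHN_stmt) (hLSE : LSE_stmt) (hBMP : BMP_stmt) (hBZB : BZB_stmt) : BZD_stmt := by
  intro C0 α hC0 hα hα1
  obtain ⟨C1, hC1, hB⟩ := hBZB C0 α hC0 hα hα1
  obtain ⟨hM1, hM2, hM3, hM4⟩ := hBMP
  refine ⟨1 / (16 * C1 ^ 2 * (2 + C1 ^ 2) ^ 2), by positivity, ?_⟩
  intro Ω G F E κ r x0 Y hCD hFD hx0 hκ hκ1 hr hr1 hband
  obtain ⟨hZd, _, hpt⟩ := hB Ω G F E κ r x0 Y hCD hFD hx0 hκ hκ1 hr hr1 hband
  obtain ⟨hYd, _, hYp⟩ := hband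
  have hBIo : IsOpen BI := isOpen_ball.prod isOpen_ball
  have hFs : ∀ q ∈ BI, ContDiffAt ℝ 2 F q := fun q hq =>
    ((OSG hBIo hFD.df).contDiffAt (hBIo.mem_nhds hq)).of_le ENat.LEInfty.out
  have hGs : ∀ Z ∈ Ω, ContDiffAt ℝ 2 G Z := fun Z hZ =>
    (hCD.sm.contDiffAt (hCD.op.mem_nhds hZ)).of_le ENat.LEInfty.out
  have hGF : ∀ q ∈ BI, ContDiffAt ℝ 2 (fun q => G (F q)) q := fun q hq =>
    (hGs (F q) (hFD.mem q hq)).comp q (hFs q hq)
  have hSF : ∀ q ∈ BI, ContDiffAt ℝ 2 (fun q => (1 / 2) * Real.log (nq (F q))) q := fun q hq =>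
    BZD_contDiff_nq F q (hFs q hq) (BZD_nq_pos (hCD.nn _ (hFD.mem q hq)).1)
  have hlevG : ∀ q ∈ BI, ∀ a, 0 ≤ lev (fun q => G (F q)) q a := by
    intro q hq a
    rw [hCHN.1 BI F G q a hBIo hFD.df hq (hGs _ (hFD.mem q hq))]
    exact hCD.ps _ (hFD.mem q hq) _
  refine ⟨?_, ?_⟩
  · intro p hp
    exact hM2 _ _ p (hGF p hp) (hSF p hp) (hlevG p hp)
      (fun a => BZD_psh hLSE F BI p hBIo hp hFD.df (hCD.nn _ (hFD.mem p hp)).1 a)
  -- the main inequality
  intro t ht v hv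
  set Bd : Set (ℂ × ℂ) := ball (0 : ℂ) κ ×ˢ ball (0 : ℂ) r with hBd
  have hBdo : IsOpen Bd := isOpen_ball.prod isOpen_ball
  have htκ : t ∈ ball (0 : ℂ) κ := ball_subset_ball (by linarith) ht
  set p : ℂ × ℂ := (t, v) with hpdef
  have hp : p ∈ Bd := ⟨htκ, hv⟩
  have hbase : 0 < pq (F (x0, 0)) := (hCD.nn _ (hFD.mem _ ⟨hx0, mem_ball_self one_pos⟩)).1
  -- the maps
  set Ψ : ℂ × ℂ → ℂ × ℂ := fun q => (Y q, q.2) with hΨ
  set Θ : ℂ × ℂ → ℂ × ℂ := fun q => (q.1, zb F x0 Y q) with hΘ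
  have hΨd : DifferentiableOn ℂ Ψ Bd := hYd.prodMk differentiableOn_snd
  have hΘd : DifferentiableOn ℂ Θ Bd := differentiableOn_fst.prodMk hZd
  have hΨm : ∀ q ∈ Bd, Ψ q ∈ BI := by
    intro q hq
    exact ⟨(hYp q.1 hq.1 q.2 hq.2).1, ball_subset_ball hr1 hq.2⟩
  set L : ℂ × ℂ → ℂ := fun q => (F (Ψ q) 0 * conj (F (x0, 0) 0) + F (Ψ q) 1 * conj (F (x0, 0) 1)) / (nr F x0 : ℂ) with hL
  have hFΨd : DifferentiableOn ℂ (fun q => F (Ψ q)) Bd := hFD.df.comp hΨd hΨm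
  have hFi : ∀ i, DifferentiableOn ℂ (fun q => F (Ψ q) i) Bd := fun i => differentiableOn_pi.1 hFΨd i
  have hLd : DifferentiableOn ℂ L Bd := by
    have h1 := (((hFi 0).mul_const (conj (F (x0, 0) 0))).fun_add ((hFi 1).mul_const (conj (F (x0, 0) 1))))
    refine (h1.mul_const ((nr F x0 : ℂ)⁻¹)).congr fun q _ => ?_
    exact div_eq_mul_inv _ _
  have hEq : ∀ q ∈ Bd, F (Ψ q) = L q • fv F x0 q.1 (zb F x0 Y q) := by
    intro q hq
    exact (hpt q.1 hq.1 q.2 hq.2).2.2.1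
  have hfvm : ∀ q ∈ Bd, fv F x0 q.1 (zb F x0 Y q) ∈ Ω := fun q hq => (hpt q.1 hq.1 q.2 hq.2).2.1
  have hL0 : ∀ q ∈ Bd, L q ≠ 0 := by
    intro q hq h0
    have h1 := hEq q hq
    rw [h0, zero_smul] at h1
    have h2 := (hCD.nn _ (hFD.mem _ (hΨm q hq))).1
    rw [h1] at h2
    unfold pq at h2
    simp at h2
  -- the reduced potentials
  set gh : ℂ × ℂ → ℝ := fun q => G (fv F x0 q.1 q.2) with hgh
  set sg : ℂ × ℂ → ℝ := fun q => (1 / 2) * Real.log (1 + Complex.normSq q.1 + Complex.normSq q.2) with hsg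
  have hA : (fun q => G (F (Ψ q))) =ᶠ[𝓝 p] fun q => gh (Θ q) + Real.log ‖L q‖ := by
    filter_upwards [hBdo.mem_nhds hp] with q hq
    rw [hEq q hq, hCD.hg _ (hfvm q hq) _ (hL0 q hq)]
  have hBq : (fun q => (1 / 2) * Real.log (nq (F (Ψ q)))) =ᶠ[𝓝 p] fun q => sg (Θ q) + Real.log ‖L q‖ := by
    filter_upwards [hBdo.mem_nhds hp] with q hq
    rw [hEq q hq]
    have h1 : nq (L q • fv F x0 q.1 (zb F x0 Y q)) = Complex.normSq (L q) * (1 + Complex.normSq q.1 +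
        Complex.normSq (zb F x0 Y q)) := by
      rw [← BZD_frame F x0 q.1 (zb F x0 Y q) hbase]
      unfold nq
      rw [Finset.mul_sum]
      refine Finset.sum_congr rfl fun i _ => ?_
      rw [Pi.smul_apply, smul_eq_mul, map_mul]
    have h2 : 0 < Complex.normSq (L q) := Complex.normSq_pos.2 (hL0 q hq)
    have h3 : 0 < 1 + Complex.normSq q.1 + Complex.normSq (zb F x0 Y q) := by
      have := Complex.normSq_nonneg q.1
      have := Complex.normSq_nonneg (zb F x0 Y q)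
      linarith
    rw [h1, Real.log_mul h2.ne' h3.ne', BZD_log]
    show _ = (1 / 2) * Real.log (1 + Complex.normSq q.1 + Complex.normSq (zb F x0 Y q)) + _
    ring
  have hΘs : ContDiffAt ℝ 2 Θ p := ((OSG hBdo hΘd).contDiffAt (hBdo.mem_nhds hp)).of_le ENat.LEInfty.out
  have hLs : ContDiffAt ℝ 2 L p := ((OSG hBdo hLd).contDiffAt (hBdo.mem_nhds hp)).of_le ENat.LEInfty.out
  have hfvs : ∀ q : ℂ × ℂ, ContDiffAt ℝ 2 (fun q : ℂ × ℂ => fv F x0 q.1 q.2) q := fun q =>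
    ((OSG isOpen_univ (BZD_fvd F x0).differentiableOn).contDiffAt (isOpen_univ.mem_nhds (Set.mem_univ q))).of_le
      ENat.LEInfty.out
  have hghs : ContDiffAt ℝ 2 gh (Θ p) := (hGs _ (hfvm p hp)).comp (Θ p) (hfvs (Θ p))
  have hsgs : ContDiffAt ℝ 2 sg (Θ p) := by
    have hn : ContDiff ℝ 2 (Complex.normSq : ℂ → ℝ) := BZD_contDiff_normSq.of_le ENat.LEInfty.out
    have h1 : ContDiffAt ℝ 2 (fun q : ℂ × ℂ => 1 + Complex.normSq q.1 + Complex.normSq q.2) (Θ p) :=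
      (contDiffAt_const.add (hn.contDiffAt.comp (Θ p) contDiffAt_fst)).add
        (hn.contDiffAt.comp (Θ p) contDiffAt_snd)
    refine contDiffAt_const.mul (h1.log ?_)
    have := Complex.normSq_nonneg (Θ p).1
    have := Complex.normSq_nonneg (Θ p).2
    linarith
  have hgΘ : ContDiffAt ℝ 2 (fun q => gh (Θ q)) p := hghs.comp p hΘs
  have hsΘ : ContDiffAt ℝ 2 (fun q => sg (Θ q)) p := hsgs.comp p hΘs
  have hlogL : ContDiffAt ℝ 2 (fun q => Real.log ‖L q‖) p := BZD_contDiff_log L p hLs (hL0 p hp)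
  -- first change of coordinates
  have hdetΨ : (fderiv ℂ Ψ p (1, 0)).1 * (fderiv ℂ Ψ p (0, 1)).2 - (fderiv ℂ Ψ p (0, 1)).1 * (fderiv ℂ Ψ p (1, 0)).2 =
      fderiv ℂ Y p (1, 0) := by
    have h1 : HasFDerivAt Ψ ((fderiv ℂ Y p).prod (ContinuousLinearMap.snd ℂ ℂ ℂ)) p :=
      (hYd.differentiableAt (hBdo.mem_nhds hp)).hasFDerivAt.prodMk hasFDerivAt_snd
    rw [h1.fderiv]
    simp
  have hdetΘ : (fderiv ℂ Θ p (1, 0)).1 * (fderiv ℂ Θ p (0, 1)).2 - (fderiv ℂ Θ p (0, 1)).1 * (fderiv ℂ Θ p (1, 0)).2 =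
      fderiv ℂ (zb F x0 Y) p (0, 1) := by
    have h1 : HasFDerivAt Θ ((ContinuousLinearMap.fst ℂ ℂ ℂ).prod (fderiv ℂ (zb F x0 Y) p)) p :=
      hasFDerivAt_fst.prodMk (hZd.differentiableAt (hBdo.mem_nhds hp)).hasFDerivAt
    rw [h1.fderiv]
    simp
  have hstep1 := hM1 Bd Ψ (fun q => G (F q)) (fun q => (1 / 2) * Real.log (nq (F q))) p hBdo hΨd hp
    (hGF _ (hΨm p hp)) (hSF _ (hΨm p hp))
  rw [hdetΨ] at hstep1
  have hstep2 : MA (fun q => G (F (Ψ q))) (fun q => (1 / 2) * Real.log (nq (F (Ψ q)))) p =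
      MA (fun q => gh (Θ q)) (fun q => sg (Θ q)) p := by
    apply BZD_MA_congr
    · intro a
      rw [BZD_lev_congr hA a, BZD_lev_add hgΘ hlogL a, BZD_lev_log L Bd p hBdo hp hLd (hL0 p hp) a, add_zero]
    · intro a
      rw [BZD_lev_congr hBq a, BZD_lev_add hsΘ hlogL a, BZD_lev_log L Bd p hBdo hp hLd (hL0 p hp) a, add_zero]
  have hstep3 := hM1 Bd Θ gh sg p hBdo hΘd hp hghs hsgs
  rw [hdetΘ] at hstep3
  -- positivity
  have hghl : ∀ a, 0 ≤ lev gh (Θ p) a := by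
    intro a
    have h1 := hCHN.1 Set.univ (fun q : ℂ × ℂ => fv F x0 q.1 q.2) G (Θ p) a isOpen_univ
      (BZD_fvd F x0).differentiableOn (Set.mem_univ _) (hGs _ (hfvm p hp))
    have h2 : lev gh (Θ p) a = _ := h1
    rw [h2]
    exact hCD.ps _ (hfvm p hp) _
  have hzb := (hpt t htκ v hv).1
  have hzbsq : Complex.normSq (zb F x0 Y p) ≤ C1 ^ 2 := by
    rw [Complex.normSq_eq_norm_sq]
    exact pow_le_pow_left₀ (norm_nonneg _) hzb 2
  have htsq : Complex.normSq t ≤ 1 := by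
    rw [Complex.normSq_eq_norm_sq]
    have h1 : ‖t‖ < κ := by simpa using htκ
    have h2 : ‖t‖ ≤ 1 := by linarith
    calc ‖t‖ ^ 2 ≤ 1 ^ 2 := pow_le_pow_left₀ (norm_nonneg _) h2 2
      _ = 1 := one_pow 2
  set c' : ℝ := 1 / (2 * (2 + C1 ^ 2) ^ 2) with hc'
  have hc'0 : 0 ≤ c' := by positivity
  have hsgl : ∀ a : ℂ × ℂ, c' * (Complex.normSq a.1 + Complex.normSq a.2) ≤ lev sg (Θ p) a := by
    intro a
    refine le_trans ?_ (BZD_sig (Θ p) a)
    apply mul_le_mul_of_nonneg_right _ (add_nonneg (Complex.normSq_nonneg _) (Complex.normSq_nonneg _))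
    have h1 : 0 < 1 + Complex.normSq (Θ p).1 + Complex.normSq (Θ p).2 := by
      have := Complex.normSq_nonneg (Θ p).1
      have := Complex.normSq_nonneg (Θ p).2
      linarith
    have h2 : 1 + Complex.normSq (Θ p).1 + Complex.normSq (Θ p).2 ≤ 2 + C1 ^ 2 := by
      have e1 : (Θ p).1 = t := rfl
      have e2 : (Θ p).2 = zb F x0 Y p := rfl
      rw [e1, e2]
      linarith
    rw [hc']
    apply one_div_le_one_div_of_le (by positivity)
    apply mul_le_mul_of_nonneg_left _ (by norm_num)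
    exact pow_le_pow_left₀ h1.le h2 2
  have hstep4 := hM3 gh sg (Θ p) c' hghs hsgs hc'0 hghl hsgl
  -- the Laplacian
  set w : ℂ := fderiv ℂ (zb F x0 Y) p (1, 0) with hw
  have hstep5 := hM4 gh (Θ p) w hghs hghl
  have hwder : HasDerivAt (fun s => zb F x0 Y (s, v)) w t := BZD_d1 (zb F x0 Y) Bd p hBdo hp hZd
  have hlapeq : lap (fun s => G (fv F x0 s (zb F x0 Y (s, v)))) t = lev gh (Θ p) (1, w) := by
    have h0 : (fun s => G (fv F x0 s (zb F x0 Y (s, v)))) = fun s => gh ((fun s : ℂ => ((s, zb F x0 Y (s, v)) : ℂ × ℂ)) s) := rfl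
    have hder : ∀ s ∈ ball (0 : ℂ) κ, DifferentiableAt ℂ (fun s : ℂ => ((s, zb F x0 Y (s, v)) : ℂ × ℂ)) s := by
      intro s hs
      exact differentiableAt_id.prodMk (BZD_d1 (zb F x0 Y) Bd (s, v) hBdo ⟨hs, hv⟩ hZd).differentiableAt
    have h1 := CHN_lap (fun s : ℂ => ((s, zb F x0 Y (s, v)) : ℂ × ℂ)) t gh
      (by filter_upwards [isOpen_ball.mem_nhds htκ] with s hs using hder s hs) hghs
    have h2 : HasDerivAt (fun s : ℂ => ((s, zb F x0 Y (s, v)) : ℂ × ℂ)) (1, w) t := (hasDerivAt_id t).prodMk hwder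
    rw [h0, h1, h2.deriv]
    exact (CHN_lev gh (Θ p) (1, w) hghs).symm
  have hwn : Complex.normSq w ≤ 4 * C1 ^ 2 / κ ^ 2 := by
    have h1 : ‖deriv (fun s => zb F x0 Y (s, v)) t‖ ≤ C1 / (κ / 2) := by
      have hsub : closedBall t (κ / 2) ⊆ ball (0 : ℂ) κ := by
        intro s hs
        rw [mem_ball_zero_iff]
        rw [mem_closedBall, dist_eq_norm] at hs
        have h2 : ‖t‖ < κ / 2 := by simpa using ht
        have h3 : ‖s‖ ≤ ‖s - t‖ + ‖t‖ := by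
          have := norm_add_le (s - t) t
          simpa using this
        linarith
      have hdc : DiffContOnCl ℂ (fun s => zb F x0 Y (s, v)) (ball t (κ / 2)) := by
        apply DifferentiableOn.diffContOnCl
        intro s hs
        have hs' : s ∈ ball (0 : ℂ) κ := hsub (closure_ball_subset_closedBall hs)
        exact (BZD_d1 (zb F x0 Y) Bd (s, v) hBdo ⟨hs', hv⟩ hZd).differentiableAt.differentiableWithinAt
      apply Complex.norm_deriv_le_of_forall_mem_sphere_norm_le (by positivity) hdc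
      intro s hs
      exact (hpt s (hsub (sphere_subset_closedBall hs)) v hv).1
    rw [hwder.deriv] at h1
    rw [Complex.normSq_eq_norm_sq]
    calc ‖w‖ ^ 2 ≤ (C1 / (κ / 2)) ^ 2 := pow_le_pow_left₀ (norm_nonneg _) h1 2
      _ = 4 * C1 ^ 2 / κ ^ 2 := by field_simp; ring
  have hq1 : 1 ≤ 4 * C1 ^ 2 / κ ^ 2 := by
    rw [le_div_iff₀ (by positivity)]
    nlinarith
  set T1 := lev gh (Θ p) (1, 0) with hT1
  set T2 := lev gh (Θ p) (0, 1) with hT2
  have hT1' : 0 ≤ T1 := hghl _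
  have hT2' : 0 ≤ T2 := hghl _
  set Q : ℝ := 4 * C1 ^ 2 / κ ^ 2 with hQ
  have hlap : lap (fun s => G (fv F x0 s (zb F x0 Y (s, v)))) t ≤ 2 * Q * (T1 + T2) := by
    rw [hlapeq]
    have h1 : Complex.normSq w * T2 ≤ Q * T2 := mul_le_mul_of_nonneg_right hwn hT2'
    have h2 : T1 ≤ Q * T1 := by nlinarith
    linarith
  have hMA : c' / (2 * Q) * lap (fun s => G (fv F x0 s (zb F x0 Y (s, v)))) t ≤ MA gh sg (Θ p) := by
    refine le_trans ?_ hstep4
    have hQ0 : 0 < Q := by linarith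
    calc c' / (2 * Q) * lap (fun s => G (fv F x0 s (zb F x0 Y (s, v)))) t ≤ c' / (2 * Q) * (2 * Q * (T1 + T2)) :=
          mul_le_mul_of_nonneg_left hlap (by positivity)
      _ = c' * (T1 + T2) := by field_simp
  have hYt : deriv (fun s => Y (s, v)) t = fderiv ℂ Y p (1, 0) := (BZD_d1 Y Bd p hBdo hp hYd).deriv
  have hzv : deriv (fun w => zb F x0 Y (t, w)) v = fderiv ℂ (zb F x0 Y) p (0, 1) :=
    (BZD_d2 (zb F x0 Y) Bd p hBdo hp hZd).deriv
  rw [hYt, hzv]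
  have hfin : Complex.normSq (fderiv ℂ Y p (1, 0)) * ard G F (Y (t, v), v) =
      Complex.normSq (fderiv ℂ (zb F x0 Y) p (0, 1)) * MA gh sg (Θ p) := by
    rw [← hstep3, ← hstep2, hstep1]
    rfl
  rw [hfin]
  have hconst : 1 / (16 * C1 ^ 2 * (2 + C1 ^ 2) ^ 2) * κ ^ 2 = c' / (2 * Q) := by
    rw [hc', hQ]
    field_simp
    norm_num
  rw [hconst]
  calc c' / (2 * Q) * (Complex.normSq (fderiv ℂ (zb F x0 Y) p (0, 1)) *
        lap (fun s => G (fv F x0 s (zb F x0 Y (s, v)))) t)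
      = Complex.normSq (fderiv ℂ (zb F x0 Y) p (0, 1)) *
        (c' / (2 * Q) * lap (fun s => G (fv F x0 s (zb F x0 Y (s, v)))) t) := by ring
    _ ≤ _ := mul_le_mul_of_nonneg_left hMA (Complex.normSq_nonneg _)

end Pool.Agent.P2B
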