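import Pool.Agent.helper15.P2.SpecD
import Pool.Agent.helper53.P2.MAU
import Pool.Agent.helper43.P2.CHN
import Pool.Agent.helper49.P2.OSG

/-!
# Row p2:BZD, tools: the Levi form of logarithms
-/

set_option autoImplicit false

open scoped ContDiff Topology ComplexConjugate ENNReal
open MeasureTheory Filter Set Metric

namespace Pool.Agent.P2B

open Pool.Agent.P2 Pool.Agent.P2I

/-! ### Germs -/

theorem BZD_lap_congr {f g : ℂ → ℝ} {z : ℂ} (h : f =ᶠ[𝓝 z] g) : lap f z = lap g z := by
  unfold lap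
  rw [(h.iteratedFDeriv (𝕜 := ℝ) 2).self_of_nhds]

theorem BZD_lap_add {f g : ℂ → ℝ} {z : ℂ} (hf : ContDiffAt ℝ 2 f z) (hg : ContDiffAt ℝ 2 g z) :
    lap (fun t => f t + g t) z = lap f z + lap g z := by
  unfold lap
  have h := iteratedFDeriv_add_apply (𝕜 := ℝ) (i := 2) hf hg
  have h' : iteratedFDeriv ℝ 2 (fun t => f t + g t) z = iteratedFDeriv ℝ 2 f z + iteratedFDeriv ℝ 2 g z := h
  rw [h']
  simp only [ContinuousMultilinearMap.add_apply]
  ring

theorem BZD_line (p a : ℂ × ℂ) : ContDiff ℝ 2 (fun t : ℂ => p + t • a) :=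
  contDiff_const.add (ContinuousLinearMap.contDiff ((ContinuousLinearMap.toSpanSingleton ℂ a).restrictScalars ℝ))

theorem BZD_line0 (p a : ℂ × ℂ) : p + (0 : ℂ) • a = p := by rw [zero_smul, add_zero]

theorem BZD_tend (p a : ℂ × ℂ) : Tendsto (fun t : ℂ => p + t • a) (𝓝 0) (𝓝 p) := by
  have h := (BZD_line p a).continuous.tendsto 0
  rwa [BZD_line0] at h

theorem BZD_contline {f : ℂ × ℂ → ℝ} {p : ℂ × ℂ} (hf : ContDiffAt ℝ 2 f p) (a : ℂ × ℂ) :
    ContDiffAt ℝ 2 (fun t : ℂ => f (p + t • a)) 0 := by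
  have h0 : ContDiffAt ℝ 2 f (p + (0 : ℂ) • a) := by rw [BZD_line0]; exact hf
  exact h0.comp (0 : ℂ) (BZD_line p a).contDiffAt

theorem BZD_lev_congr {f g : ℂ × ℂ → ℝ} {p : ℂ × ℂ} (h : f =ᶠ[𝓝 p] g) (a : ℂ × ℂ) : lev f p a = lev g p a := by
  unfold lev
  apply BZD_lap_congr
  exact (BZD_tend p a).eventually h

theorem BZD_lev_add {f g : ℂ × ℂ → ℝ} {p : ℂ × ℂ} (hf : ContDiffAt ℝ 2 f p) (hg : ContDiffAt ℝ 2 g p) (a : ℂ × ℂ) :
    lev (fun q => f q + g q) p a = lev f p a + lev g p a := by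
  unfold lev
  exact BZD_lap_add (BZD_contline hf a) (BZD_contline hg a)

theorem BZD_MA_congr {A A' B B' : ℂ × ℂ → ℝ} {p p' : ℂ × ℂ} (hA : ∀ a, lev A p a = lev A' p' a)
    (hB : ∀ a, lev B p a = lev B' p' a) : MA A B p = MA A' B' p' := by
  unfold MA lre Pool.Agent.P2.lim
  simp only [hA, hB]

/-! ### Logarithms -/

theorem BZD_log (w : ℂ) : Real.log ‖w‖ = (1 / 2) * Real.log (Complex.normSq w) := by
  rw [Complex.normSq_eq_norm_sq, Real.log_pow]
  push_cast
  ring

theorem BZD_lap_log (h : ℂ → ℂ) (O : Set ℂ) (z : ℂ) (hO : IsOpen O) (hz : z ∈ O) (hd : DifferentiableOn ℂ h O)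
    (hne : h z ≠ 0) : lap (fun t => Real.log ‖h t‖) z = 0 := by
  have key := MAU_core h (fun _ => 0) z 1 O hO hz hd (differentiableOn_const 0) (Or.inl hne)
  have e : (fun t => (1 / 2) * Real.log (Complex.normSq (h t) + Complex.normSq (0 : ℂ)) / 1) =
      fun t => Real.log ‖h t‖ := by
    funext t
    rw [BZD_log, map_zero, add_zero, div_one]
  rw [e] at key
  rw [key]
  simp

/-- log of the modulus of a function which is holomorphic near `p` has zero Levi form -/
theorem BZD_lev_log (h : ℂ × ℂ → ℂ) (O : Set (ℂ × ℂ)) (p : ℂ × ℂ) (hO : IsOpen O) (hp : p ∈ O)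
    (hd : DifferentiableOn ℂ h O) (hne : h p ≠ 0) (a : ℂ × ℂ) : lev (fun q => Real.log ‖h q‖) p a = 0 := by
  unfold lev
  have hc : Continuous (fun t : ℂ => p + t • a) := (BZD_line p a).continuous
  have hdl : Differentiable ℂ (fun t : ℂ => p + t • a) := by fun_prop
  refine BZD_lap_log (fun t => h (p + t • a)) ((fun t : ℂ => p + t • a) ⁻¹' O) 0 (hO.preimage hc) ?_ ?_ ?_
  · rw [Set.mem_preimage, BZD_line0]; exact hp
  · exact hd.comp hdl.differentiableOn (fun t ht => ht)
  · rw [BZD_line0]; exact hne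

theorem BZD_contDiff_normSq : ContDiff ℝ ∞ (Complex.normSq : ℂ → ℝ) := by
  have e : (Complex.normSq : ℂ → ℝ) = fun z => z.re * z.re + z.im * z.im := by
    ext z
    exact Complex.normSq_apply z
  rw [e]
  have h1 : ContDiff ℝ ∞ (fun z : ℂ => z.re) := Complex.reCLM.contDiff
  have h2 : ContDiff ℝ ∞ (fun z : ℂ => z.im) := Complex.imCLM.contDiff
  exact (h1.mul h1).add (h2.mul h2)

theorem BZD_contDiff_log {E : Type} [NormedAddCommGroup E] [NormedSpace ℝ E] (h : E → ℂ) (p : E)
    (hd : ContDiffAt ℝ 2 h p) (hne : h p ≠ 0) : ContDiffAt ℝ 2 (fun q => Real.log ‖h q‖) p := by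
  have e : (fun q => Real.log ‖h q‖) = fun q => (1 / 2) * Real.log (Complex.normSq (h q)) := by
    funext q; exact BZD_log _
  rw [e]
  have h1 : ContDiffAt ℝ 2 (fun q => Complex.normSq (h q)) p :=
    ((BZD_contDiff_normSq.of_le ENat.LEInfty.out).contDiffAt).comp p hd
  exact contDiffAt_const.mul (h1.log (Complex.normSq_pos.2 hne).ne')

/-! ### The Fubini-Study potential -/

theorem BZD_sig (p a : ℂ × ℂ) :
    (1 / (2 * (1 + Complex.normSq p.1 + Complex.normSq p.2) ^ 2)) * (Complex.normSq a.1 + Complex.normSq a.2) ≤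
      lev (fun q : ℂ × ℂ => (1 / 2) * Real.log (1 + Complex.normSq q.1 + Complex.normSq q.2)) p a := by
  set N : ℝ := 1 + Complex.normSq p.1 + Complex.normSq p.2 with hN
  have hn1 := Complex.normSq_nonneg p.1
  have hn2 := Complex.normSq_nonneg p.2
  have hN1 : 1 ≤ N := by linarith
  set U : ℝ := Real.sqrt N with hU
  have hU0 : 0 < U := Real.sqrt_pos.2 (by linarith)
  have hUU : U * U = N := Real.mul_self_sqrt (by linarith)
  set w : ℂ := a.1 * conj p.1 + a.2 * conj p.2 with hw
  set A : ℝ := Complex.normSq a.1 + Complex.normSq a.2 with hA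
  have hA0 : 0 ≤ A := add_nonneg (Complex.normSq_nonneg _) (Complex.normSq_nonneg _)
  have hCS : Complex.normSq w ≤ A * (N - 1) := by
    rw [hw, hA, hN]
    simp only [Complex.normSq_apply, Complex.add_re, Complex.add_im, Complex.mul_re, Complex.mul_im,
      Complex.conj_re, Complex.conj_im]
    nlinarith [sq_nonneg (a.1.re * p.2.re - a.2.re * p.1.re - (a.1.im * p.2.im - a.2.im * p.1.im)),
      sq_nonneg (a.1.re * p.2.im + a.1.im * p.2.re - a.2.re * p.1.im - a.2.im * p.1.re)]
  have hd0 : 0 ≤ A - Complex.normSq w / N := by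
    have : Complex.normSq w / N ≤ A := by
      rw [div_le_iff₀ (by linarith)]
      nlinarith
    linarith
  set d : ℝ := Real.sqrt (A - Complex.normSq w / N) with hd
  have hdd : d * d = A - Complex.normSq w / N := Real.mul_self_sqrt hd0
  set b : ℂ := w / (U : ℂ) with hb
  have key := MAU_core (fun s => (U : ℂ) + s * b) (fun s => s * (d : ℂ)) 0 1 Set.univ isOpen_univ (Set.mem_univ _)
    (by fun_prop) (by fun_prop) (Or.inl (by simpa using hU0.ne'))
  have e : (fun t : ℂ => (1 / 2) * Real.log (Complex.normSq ((U : ℂ) + t * b) + Complex.normSq (t * (d : ℂ))) / 1) =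
      fun t : ℂ => (1 / 2) * Real.log (1 + Complex.normSq (p + t • a).1 + Complex.normSq (p + t • a).2) := by
    funext t
    rw [div_one]
    congr 2
    have h1 : Complex.normSq ((U : ℂ) + t * b) = N + 2 * (t * w).re + Complex.normSq t * (Complex.normSq w / N) := by
      have hbU : b = ((1 / U : ℝ) : ℂ) * w := by
        rw [hb]; push_cast; ring
      have hUinv : U * (1 / U) = 1 := by field_simp
      have hNinv : (1 / U) * (1 / U) = 1 / N := by
        rw [← hUU]; field_simp
      rw [hbU]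
      have h2 : Complex.normSq ((U : ℂ) + t * (((1 / U : ℝ) : ℂ) * w)) =
          U * U + 2 * (U * (1 / U)) * (t * w).re + ((1 / U) * (1 / U)) * (Complex.normSq t * Complex.normSq w) := by
        simp only [Complex.normSq_apply, Complex.add_re, Complex.add_im, Complex.mul_re, Complex.mul_im,
          Complex.ofReal_re, Complex.ofReal_im]
        ring
      rw [h2, hUU, hUinv, hNinv]
      ring
    have h3 : Complex.normSq (t * (d : ℂ)) = Complex.normSq t * (A - Complex.normSq w / N) := by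
      rw [map_mul, Complex.normSq_ofReal, hdd]
    rw [h1, h3]
    have h4 : N + 2 * (t * w).re + Complex.normSq t * (Complex.normSq w / N) + Complex.normSq t * (A - Complex.normSq w / N)
        = N + 2 * (t * w).re + Complex.normSq t * A := by ring
    rw [h4, hN, hw, hA]
    simp only [Prod.fst_add, Prod.snd_add, Prod.smul_fst, Prod.smul_snd, smul_eq_mul]
    simp only [Complex.normSq_apply, Complex.add_re, Complex.add_im, Complex.mul_re, Complex.mul_im,
      Complex.conj_re, Complex.conj_im]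
    ring
  rw [e] at key
  have hlev : lev (fun q : ℂ × ℂ => (1 / 2) * Real.log (1 + Complex.normSq q.1 + Complex.normSq q.2)) p a =
      (1 / 2) * (U * U * (d * d)) / (U * U) ^ 2 := by
    unfold lev
    rw [key]
    have hder1 : deriv (fun s : ℂ => (U : ℂ) + s * b) 0 = b := by
      have h : HasDerivAt (fun s : ℂ => (U : ℂ) + s * b) (1 * b) 0 := ((hasDerivAt_id (0 : ℂ)).mul_const b).const_add _
      rw [h.deriv, one_mul]
    have hder2 : deriv (fun s : ℂ => s * (d : ℂ)) 0 = (d : ℂ) := by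
      have h : HasDerivAt (fun s : ℂ => s * (d : ℂ)) (1 * (d : ℂ)) 0 := (hasDerivAt_id (0 : ℂ)).mul_const _
      rw [h.deriv, one_mul]
    rw [hder1, hder2]
    simp only [zero_mul, add_zero, sub_zero, map_mul, Complex.normSq_ofReal, div_one, map_zero]
  rw [hlev, hUU, hdd]
  have hN0 : 0 < N := by linarith
  rw [div_mul_eq_mul_div, one_mul, div_le_div_iff₀ (by positivity) (by positivity)]
  have h5 : N * (A - Complex.normSq w / N) = N * A - Complex.normSq w := by field_simp
  rw [h5]
  nlinarith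

end Pool.Agent.P2B
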