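import Pool.Agent.helper83.P2.SpecV
import Pool.Agent.helper43.P2.CHN

set_option autoImplicit false

/-!
# Project P2 (MP_063734_an), row VCJ: continuity in `v` of the integrals over the translates of a disc

The integrands are continuous on `ball 0 r × ball 0 1` and vanish for `‖z‖ ≥ 4/5`.
-/

open scoped ContDiff Topology
open MeasureTheory Filter Set Metric MvPolynomial Pool.Agent.helper37.QA Pool.Agent.P2

namespace Pool.Agent.P2V

open Pool.Agent.P2

theorem VCJ_eta0 {z : ℂ} (hz : 4 / 5 ≤ ‖z‖) : eta z = 0 := by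
  unfold eta
  apply Real.smoothTransition.zero_of_nonpos
  rw [Complex.normSq_eq_norm_sq]
  nlinarith [norm_nonneg z]

theorem VCJ_etac : Continuous eta := by
  unfold eta
  exact Real.smoothTransition.continuous.comp
    (continuous_const.sub (continuous_const.mul Complex.continuous_normSq))

/-- parameter integrals -/
theorem VCJ_par (r : ℝ) (G : ℂ → ℂ → ℝ)
    (hG : ContinuousOn (fun q : ℂ × ℂ => G q.1 q.2) (ball (0 : ℂ) r ×ˢ ball (0 : ℂ) 1)) :
    ContinuousOn (fun v => ∫ z, eta z ^ 2 * G v z) (ball 0 r) ∧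
      ∀ v ∈ ball (0 : ℂ) r, Integrable (fun z => eta z ^ 2 * G v z) := by
  have h1 : ContinuousOn (fun q : ℂ × ℂ => eta q.2 ^ 2 * G q.1 q.2) (ball (0 : ℂ) r ×ˢ univ) := by
    intro q hq
    by_cases h : q.2 ∈ ball (0 : ℂ) 1
    · have h2 : ContinuousAt (fun q : ℂ × ℂ => G q.1 q.2) q :=
        hG.continuousAt ((isOpen_ball.prod isOpen_ball).mem_nhds ⟨hq.1, h⟩)
      exact (((VCJ_etac.comp continuous_snd).pow 2).continuousAt.mul h2).continuousWithinAt
    · have h3 : (fun q : ℂ × ℂ => eta q.2 ^ 2 * G q.1 q.2) =ᶠ[𝓝 q] fun _ => 0 := by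
        have h4 : 4 / 5 < ‖q.2‖ := by
          rw [mem_ball_zero_iff, not_lt] at h
          linarith
        have h5 : ∀ᶠ p : ℂ × ℂ in 𝓝 q, 4 / 5 < ‖p.2‖ :=
          (continuous_snd.norm.continuousAt (x := q)).eventually (lt_mem_nhds h4)
        filter_upwards [h5] with p hp
        rw [VCJ_eta0 hp.le]
        ring
      exact ((continuousAt_congr h3).2 continuousAt_const).continuousWithinAt
  have hz : ∀ v z : ℂ, z ∉ closedBall (0 : ℂ) (4 / 5) → eta z ^ 2 * G v z = 0 := by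
    intro v z hz
    rw [mem_closedBall_zero_iff, not_le] at hz
    rw [VCJ_eta0 hz.le]
    ring
  refine ⟨continuousOn_integral_of_compact_support (f := fun v z => eta z ^ 2 * G v z)
    (isCompact_closedBall (0 : ℂ) (4 / 5)) h1 fun v z _ h => hz v z h, fun v hv => ?_⟩
  have h2 : Continuous (fun z => eta z ^ 2 * G v z) := by
    rw [continuous_iff_continuousAt]
    intro z
    have h3 : ContinuousAt (fun q : ℂ × ℂ => eta q.2 ^ 2 * G q.1 q.2) (v, z) :=
      h1.continuousAt ((isOpen_ball.prod isOpen_univ).mem_nhds ⟨hv, mem_univ _⟩)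
    exact h3.comp (f := fun z : ℂ => (v, z)) (Continuous.prodMk_right v).continuousAt
  exact h2.integrable_of_hasCompactSupport (HasCompactSupport.intro (isCompact_closedBall (0 : ℂ) (4 / 5)) fun z h => hz v z h)

/-! ### Polynomial maps -/

theorem VCJ_Itd {d : ℕ} (f : Endo 2 d) (N : ℕ) (i : Fin 3) : ContDiff ℂ ∞ (fun W => It f N W i) := by
  have h1 : (fun W => It f N W i) = fun W => eval W (iter f.F N i) := rfl
  rw [h1]
  exact (AnalyticOnNhd.eval_mvPolynomial (iter f.F N i)).contDiff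

theorem VCJ_It {d : ℕ} (f : Endo 2 d) (N : ℕ) (i : Fin 3) {S : Set (ℂ × ℂ)} {W : ℂ × ℂ → E3} (hWc : ContinuousOn W S) :
    ContinuousOn (fun q => It f N (W q) i) S := (VCJ_Itd f N i).continuous.comp_continuousOn hWc

theorem VCJ_fd {d : ℕ} (f : Endo 2 d) (N : ℕ) (i : Fin 3) {S : Set (ℂ × ℂ)} {W E : ℂ × ℂ → E3} (hWc : ContinuousOn W S) (hE : ContinuousOn E S) :
    ContinuousOn (fun q => fderiv ℂ (fun W => It f N W i) (W q) (E q)) S := by
  have h2 : Continuous (fderiv ℂ (fun W => It f N W i)) := (VCJ_Itd f N i).continuous_fderiv (by simp)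
  have h3 : ContinuousOn (fun q => fderiv ℂ (fun W => It f N W i) (W q)) S := h2.comp_continuousOn hWc
  exact h3.clm_apply hE

theorem VCJ_ccc {d : ℕ} (f : Endo 2 d) (N : ℕ) {S : Set (ℂ × ℂ)} {W E : ℂ × ℂ → E3} (hWc : ContinuousOn W S) (hE : ContinuousOn E S) :
    ContinuousOn (fun q => cc f N (W q) (E q)) S := by
  unfold cc
  exact ((VCJ_It f N 1 hWc).mul (VCJ_fd f N 0 hWc hE)).sub ((VCJ_It f N 0 hWc).mul (VCJ_fd f N 1 hWc hE))

/-! ### The translates -/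

theorem VCJ_mv (j : Fin 3) {S : Set (ℂ × ℂ)} {G : ℂ × ℂ → E3} (hG : ContinuousOn G S) :
    ContinuousOn (fun q : ℂ × ℂ => mv (adE one3 2 j q.1) (G q)) S := by
  rw [continuousOn_pi]
  intro k
  show ContinuousOn (fun q : ℂ × ℂ => ∑ l, adE one3 2 j q.1 k l * G q l) S
  refine continuousOn_finset_sum _ fun l _ => ?_
  have h1 : ContinuousOn (fun q : ℂ × ℂ => G q l) S := (continuous_apply l).comp_continuousOn hG
  have h2 : Continuous (fun q : ℂ × ℂ => adE one3 2 j q.1 k l) := by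
    unfold adE
    split_ifs
    · exact continuous_const.add continuous_fst
    · exact continuous_const.add continuous_const
  exact h2.continuousOn.mul h1

theorem VCJ_dmv (A : M3) {Y : ℂ → E3} {Y' : E3} {z : ℂ} (h : HasDerivAt Y Y' z) :
    HasDerivAt (fun z => mv A (Y z)) (mv A Y') z := by
  rw [hasDerivAt_pi]
  intro k
  rw [hasDerivAt_pi] at h
  show HasDerivAt (fun z => ∑ l, A k l * Y z l) (∑ l, A k l * Y' l) z
  exact HasDerivAt.fun_sum fun l _ => (h l).const_mul (A k l)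

theorem VCJ_tau {d : ℕ} (f : Endo 2 d) (N : ℕ) {Z : ℂ → E3} {Z' : E3} {z : ℂ} (h : HasDerivAt Z Z' z) :
    tau f N Z z = (1 / 2) * Complex.normSq (cc f N (Z z) Z') / pq (It f N (Z z)) ^ 2 / (d : ℝ) ^ N := by
  have h1 : ∀ i : Fin 3, deriv (fun z => It f N (Z z) i) z = fderiv ℂ (fun W => It f N W i) (Z z) Z' := by
    intro i
    have h2 : HasFDerivAt (fun W => It f N W i) (fderiv ℂ (fun W => It f N W i) (Z z)) (Z z) :=
      ((VCJ_Itd f N i).differentiable (by simp)).differentiableAt.hasFDerivAt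
    exact (h2.comp_hasDerivAt z h).deriv
  unfold tau cc
  rw [h1, h1]

theorem VCJ_lev {U : Set (PP 2)} (hco : IsOpen (cone U)) {Ψ : E3 → ℝ} (hΨ : ContDiffOn ℝ ∞ Ψ (cone U)) {S : Set (ℂ × ℂ)} {W E : ℂ × ℂ → E3}
    (hWc : ContinuousOn W S) (hWm : MapsTo W S (cone U)) (hE : ContinuousOn E S) :
    ContinuousOn (fun q => lev Ψ (W q) (E q)) S := by
  have g1 : ContDiffOn ℝ 1 (fderiv ℝ Ψ) (cone U) := hΨ.fderiv_of_isOpen hco (by norm_cast)
  have g2 : ContinuousOn (fderiv ℝ (fderiv ℝ Ψ)) (cone U) := g1.continuousOn_fderiv_of_isOpen hco (by norm_num)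
  have g3 : ContinuousOn (fun q => fderiv ℝ (fderiv ℝ Ψ) (W q)) S := g2.comp hWc hWm
  have g5 : ContinuousOn (fun q => Complex.I • E q) S := hE.const_smul Complex.I
  have g4 : ContinuousOn (fun q => (1 / 4) * (fderiv ℝ (fderiv ℝ Ψ) (W q) (E q) (E q) +
      fderiv ℝ (fderiv ℝ Ψ) (W q) (Complex.I • E q) (Complex.I • E q))) S :=
    continuousOn_const.mul (((g3.clm_apply hE).clm_apply hE).add ((g3.clm_apply g5).clm_apply g5))
  refine g4.congr fun q hq => ?_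
  exact CHN_lev Ψ (W q) (E q) ((hΨ.contDiffAt (hco.mem_nhds (hWm hq))).of_le (by norm_cast))

theorem VCJ_pq {d : ℕ} (f : Endo 2 d) (N : ℕ) {S : Set (ℂ × ℂ)} {W : ℂ × ℂ → E3} (hWc : ContinuousOn W S) :
    ContinuousOn (fun q => pq (It f N (W q))) S := by
  have h1 : Continuous (fun Z : E3 => pq (It f N Z)) := by
    unfold pq
    exact (Complex.continuous_normSq.comp (VCJ_Itd f N 0).continuous).add
      (Complex.continuous_normSq.comp (VCJ_Itd f N 1).continuous)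
  exact h1.comp_continuousOn hWc

theorem VCJ_m1 {d : ℕ} (f : Endo 2 d) (N : ℕ) {S : Set (ℂ × ℂ)} {W D : ℂ × ℂ → E3}
    (hPp : ∀ q ∈ S, 0 < pq (It f N (W q))) (hWc : ContinuousOn W S) (hDc : ContinuousOn D S) :
    ContinuousOn (fun q : ℂ × ℂ => (1 / 2) * Complex.normSq (cc f N (W q) (D q)) / pq (It f N (W q)) ^ 2 / (d : ℝ) ^ N) S := by
  have h1 : ContinuousOn (fun q => Complex.normSq (cc f N (W q) (D q))) S :=
    Complex.continuous_normSq.comp_continuousOn (VCJ_ccc f N hWc hDc)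
  have h2 : ContinuousOn (fun q => pq (It f N (W q)) ^ 2) S := (VCJ_pq f N hWc).pow 2
  have h3 : ContinuousOn (fun q => (1 / 2) * Complex.normSq (cc f N (W q) (D q)) / pq (It f N (W q)) ^ 2) S :=
    (continuousOn_const.mul h1).div h2 fun q hq => (pow_pos (hPp q hq) 2).ne'
  exact h3.div_const _

theorem VCJ_m3 {d : ℕ} (f : Endo 2 d) {U : Set (PP 2)} (hd : 2 ≤ d) (hco : IsOpen (cone U)) (N : ℕ) {Ψ : E3 → ℝ}
    (hΨ : ContDiffOn ℝ ∞ Ψ (cone U)) {S : Set (ℂ × ℂ)} {W D X : ℂ × ℂ → E3}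
    (hPp : ∀ q ∈ S, 0 < pq (It f N (W q)))
    (hWc : ContinuousOn W S) (hWm : MapsTo W S (cone U)) (hDc : ContinuousOn D S) (hXc : ContinuousOn X S) :
    ContinuousOn (fun q => en f N Ψ (W q) (X q) (D q)) S := by
  have hdN : (d : ℝ) ^ N ≠ 0 := pow_ne_zero _ (by exact_mod_cast (by omega : d ≠ 0))
  have h0 : ContinuousOn (fun q => cc f N (W q) (X q) • D q) S := (VCJ_ccc f N hWc hXc).smul hDc
  have h1 : ContinuousOn (fun q => cc f N (W q) (D q) • X q) S := (VCJ_ccc f N hWc hDc).smul hXc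
  have h3 := VCJ_lev hco hΨ hWc hWm (h0.sub h1)
  have h4 : ContinuousOn (fun q => 2 * (d : ℝ) ^ N * pq (It f N (W q)) ^ 2) S := continuousOn_const.mul ((VCJ_pq f N hWc).pow 2)
  have h5 : ∀ q ∈ S, 2 * (d : ℝ) ^ N * pq (It f N (W q)) ^ 2 ≠ 0 := fun q hq =>
    mul_ne_zero (mul_ne_zero (by norm_num) hdN) (pow_pos (hPp q hq) 2).ne'
  unfold en
  exact h3.div h4 h5

theorem VCJ (hUN1 : UN1_stmt) : VCJ_stmt := by
  intro d f U hd hU N Ψ B r Y ι hΨ hr hY hmem
  obtain ⟨C, hC, -, -, hpq, -⟩ := hUN1 d f U hd hU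
  have hUo : IsOpen U := hU.1.1
  have hsub : cone U ⊆ cone (closure U) := fun x hx => ⟨hx.1, subset_closure hx.2⟩
  have hYc : ContinuousOn (fun q : ℂ × ℂ => Y q.2) (ball (0 : ℂ) r ×ˢ ball (0 : ℂ) 1) :=
    hY.continuousOn.comp continuous_snd.continuousOn fun q hq => hq.2
  have hYd : ContinuousOn (fun q : ℂ × ℂ => deriv Y q.2) (ball (0 : ℂ) r ×ˢ ball (0 : ℂ) 1) :=
    (hY.deriv isOpen_ball).continuousOn.comp continuous_snd.continuousOn fun q hq => hq.2
  have hXc : ContinuousOn (fun q : ℂ × ℂ => (Pi.single 2 (Y q.2 ι.castSucc) : E3)) (ball (0 : ℂ) r ×ˢ ball (0 : ℂ) 1) := by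
    rw [continuousOn_pi]
    intro k
    by_cases hk : k = 2
    · subst hk
      simp only [Pi.single_eq_same]
      exact (continuous_apply ι.castSucc).comp_continuousOn hYc
    · have : (fun q : ℂ × ℂ => (Pi.single 2 (Y q.2 ι.castSucc) : E3) k) = fun _ => 0 := by
        funext q
        rw [Pi.single_eq_of_ne hk]
      rw [this]
      exact continuousOn_const
  have hWc : ContinuousOn (fun q : ℂ × ℂ => Av ι q.1 Y q.2) (ball (0 : ℂ) r ×ˢ ball (0 : ℂ) 1) := VCJ_mv ι.castSucc hYc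
  have hWm : MapsTo (fun q : ℂ × ℂ => Av ι q.1 Y q.2) (ball (0 : ℂ) r ×ˢ ball (0 : ℂ) 1) (cone U) :=
    fun q hq => hmem q.1 hq.1 q.2 hq.2
  have hDc := VCJ_mv ι.castSucc hYd
  have hPp : ∀ q ∈ ball (0 : ℂ) r ×ˢ ball (0 : ℂ) 1, 0 < pq (It f N (Av ι q.1 Y q.2)) := fun q hq =>
    (hpq N _ (hsub (hWm hq))).1
  have c1 := VCJ_m1 f N hPp hWc hDc
  have c2 : ContinuousOn (fun q : ℂ × ℂ => Ψ (Av ι q.1 Y q.2)) (ball (0 : ℂ) r ×ˢ ball (0 : ℂ) 1) := hΨ.1.continuousOn.comp hWc hWm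
  have c3 := VCJ_m3 f hd (cone_open hUo) N hΨ.1 hPp hWc hWm hDc hXc
  have htau : ContinuousOn (fun q : ℂ × ℂ => tau f N (Av ι q.1 Y) q.2) (ball (0 : ℂ) r ×ˢ ball (0 : ℂ) 1) := by
    refine c1.congr fun q hq => ?_
    exact VCJ_tau f N (VCJ_dmv _ ((hY.differentiableAt (isOpen_ball.mem_nhds hq.2)).hasDerivAt))
  obtain ⟨a1, b1⟩ := VCJ_par r (fun v z => tau f N (Av ι v Y) z) htau
  obtain ⟨a2, b2⟩ := VCJ_par r (fun v z => Ψ (Av ι v Y z) * tau f N (Av ι v Y) z) (c2.mul htau)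
  obtain ⟨a3, b3⟩ := VCJ_par r (fun v z => Gn f N Ψ ι v Y z) c3
  exact ⟨a1, a2, a3, fun v hv => ⟨b1 v hv, b2 v hv, b3 v hv⟩⟩

end Pool.Agent.P2V
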