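import Pool.Agent.helper56.P2.SpecW
import Pool.Agent.helper15.P2.IB1
import Pool.Agent.helper48.P2.IS3

set_option autoImplicit false
set_option linter.unusedVariables false

/-!
# Project P2 (MP_063734_an), row WM2: bounds of the masses of the translates of a graph

`χ` a cut-off, `c` a constant: `∫ χ gt = ∫ lap χ un = ∫ lap χ (un - c)`, because `∫ lap χ = 0`; so `∫ χ gt ≤ B ∫ |lap χ|` if
`|un - c| ≤ B` on the support of `χ`.  The number `∫ |lap χ|` does not change if `χ` is rescaled.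
-/

open scoped ContDiff Topology ComplexConjugate ENNReal
open MeasureTheory Filter Set Metric MvPolynomial Pool.Agent.helper37.QA

namespace Pool.Agent.P2W

open Pool.Agent.P2

/-! ### Cut-offs -/

theorem WM2_lapc {χ : ℂ → ℝ} (hχ : ContDiff ℝ ∞ χ) : Continuous (lap χ) := by
  rw [← continuousOn_univ]
  exact P2I.IS3_lapc χ univ isOpen_univ hχ.contDiffOn

theorem WM2_lapcs {χ : ℂ → ℝ} (hc : HasCompactSupport χ) : HasCompactSupport (lap χ) :=
  hc.mono' ((subset_tsupport _).trans (P2I.IS3_tsupp χ))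

theorem WM2_lapi {χ : ℂ → ℝ} (hχ : ContDiff ℝ ∞ χ) (hc : HasCompactSupport χ) : Integrable (lap χ) :=
  (WM2_lapc hχ).integrable_of_hasCompactSupport (WM2_lapcs hc)

theorem WM2_lap0 {χ : ℂ → ℝ} (hχ : ContDiff ℝ ∞ χ) (hc : HasCompactSupport χ) : ∫ z, lap χ z = 0 := by
  have h := P2I.IB1 univ χ (fun _ => (1 : ℝ)) isOpen_univ hχ hc (subset_univ _) contDiffOn_const
  have h0 : ∀ z : ℂ, lap (fun _ : ℂ => (1 : ℝ)) z = 0 := by
    intro z
    unfold lap
    rw [iteratedFDeriv_const_of_ne (by norm_num)]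
    simp
  have h1 : (fun z => χ z * lap (fun _ : ℂ => (1 : ℝ)) z) = fun _ => 0 := by
    funext z
    rw [h0, mul_zero]
  rw [h1, integral_zero] at h
  have h2 : (fun z => lap χ z * 1) = lap χ := by
    funext z
    rw [mul_one]
  rw [h2] at h
  exact h.symm

/-- `b` moved to the disc of centre `z` and radius `r` -/
noncomputable def WM2_mv (b : ℂ → ℝ) (z : ℂ) (r : ℝ) (ξ : ℂ) : ℝ := b (r⁻¹ • (ξ - z))

theorem WM2_mvd {b : ℂ → ℝ} (hb : ContDiff ℝ ∞ b) (z : ℂ) (r : ℝ) : ContDiff ℝ ∞ (WM2_mv b z r) := by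
  unfold WM2_mv
  exact hb.comp ((contDiff_id.sub contDiff_const).const_smul r⁻¹)

theorem WM2_mvl {b : ℂ → ℝ} (hb : ContDiff ℝ ∞ b) (z : ℂ) (r : ℝ) (ξ : ℂ) :
    lap (WM2_mv b z r) ξ = r⁻¹ ^ 2 * lap b (r⁻¹ • (ξ - z)) := by
  have h1 : ∀ m : Fin 2 → ℂ, iteratedFDeriv ℝ 2 (fun w : ℂ => b (r⁻¹ • w)) (ξ - z) m =
      r⁻¹ ^ 2 * iteratedFDeriv ℝ 2 b (r⁻¹ • (ξ - z)) m := by
    intro m
    have e : (fun w : ℂ => b (r⁻¹ • w)) = b ∘ (r⁻¹ • ContinuousLinearMap.id ℝ ℂ) := rfl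
    have h2 := (r⁻¹ • ContinuousLinearMap.id ℝ ℂ).iteratedFDeriv_comp_right (hb.of_le (WithTop.coe_le_coe.2 le_top)) (ξ - z)
      (le_refl (2 : WithTop ℕ∞))
    rw [e]
    have h3 := congrArg (fun T => T m) h2
    refine h3.trans ?_
    show (iteratedFDeriv ℝ 2 b (r⁻¹ • (ξ - z))) (fun i => r⁻¹ • m i) = _
    rw [ContinuousMultilinearMap.map_smul_univ (iteratedFDeriv ℝ 2 b (r⁻¹ • (ξ - z))) (fun _ => r⁻¹) m]
    simp
  have h4 : ∀ m : Fin 2 → ℂ, iteratedFDeriv ℝ 2 (WM2_mv b z r) ξ m = r⁻¹ ^ 2 * iteratedFDeriv ℝ 2 b (r⁻¹ • (ξ - z)) m := by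
    intro m
    have e := congrArg (fun T => T m) (iteratedFDeriv_comp_sub (𝕜 := ℝ) (f := fun w : ℂ => b (r⁻¹ • w)) 2 z ξ)
    exact Eq.trans e (h1 m)
  unfold lap
  rw [h4, h4]
  ring

theorem WM2_mvi {b : ℂ → ℝ} (hb : ContDiff ℝ ∞ b) (z : ℂ) {r : ℝ} (hr : 0 < r) :
    ∫ ξ, |lap (WM2_mv b z r) ξ| = ∫ ξ, |lap b ξ| := by
  have h1 : (fun ξ => |lap (WM2_mv b z r) ξ|) = fun ξ => (fun w : ℂ => r⁻¹ ^ 2 * |lap b (r⁻¹ • w)|) (ξ - z) := by
    funext ξ
    rw [WM2_mvl hb, abs_mul, abs_of_nonneg (by positivity : (0 : ℝ) ≤ r⁻¹ ^ 2)]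
  rw [h1, integral_sub_right_eq_self (fun w : ℂ => r⁻¹ ^ 2 * |lap b (r⁻¹ • w)|) z, integral_const_mul,
    Measure.integral_comp_inv_smul volume (fun w : ℂ => |lap b w|) r]
  have h2 : Module.finrank ℝ ℂ = 2 := Complex.finrank_real_complex
  rw [h2, smul_eq_mul, abs_of_nonneg (by positivity : (0 : ℝ) ≤ r ^ 2), ← mul_assoc, ← mul_pow, inv_mul_cancel₀ hr.ne',
    one_pow, one_mul]

/-- a cut-off: `1` on the disc of radius `a`, support in the closed disc of radius `a'` -/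
structure WM2_Cut (b : ℂ → ℝ) (a a' : ℝ) : Prop where
  sm : ContDiff ℝ ∞ b
  p0 : ∀ x, 0 ≤ b x
  p1 : ∀ x, b x ≤ 1
  on : ∀ x, ‖x‖ ≤ a → b x = 1
  cs : HasCompactSupport b
  off : ∀ x, a' < ‖x‖ → b x = 0

theorem WM2_ex (a a' : ℝ) (h0 : 0 < a) (h1 : a < a') : ∃ b : ℂ → ℝ, WM2_Cut b a a' := by
  let b : ContDiffBump (0 : ℂ) := ⟨a, a', h0, h1⟩
  refine ⟨b, b.contDiff, fun x => b.nonneg, fun x => b.le_one, fun x hx => ?_, b.hasCompactSupport, fun x hx => ?_⟩
  · exact b.one_of_mem_closedBall (by rwa [mem_closedBall_zero_iff])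
  · exact b.zero_of_le_dist (by rw [dist_zero_right]; exact hx.le)

theorem WM2_mvc {b : ℂ → ℝ} {a a' : ℝ} (hb : WM2_Cut b a a') (z : ℂ) {r : ℝ} (hr : 0 < r) :
    HasCompactSupport (WM2_mv b z r) ∧ tsupport (WM2_mv b z r) ⊆ closedBall z (a' * r) ∧
      (∀ x, ‖x - z‖ ≤ a * r → WM2_mv b z r x = 1) := by
  have hn : ∀ x : ℂ, ‖r⁻¹ • (x - z)‖ = ‖x - z‖ / r := by
    intro x
    rw [norm_smul, Real.norm_eq_abs, abs_of_pos (inv_pos.2 hr), inv_mul_eq_div]
  have h1 : Function.support (WM2_mv b z r) ⊆ closedBall z (a' * r) := by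
    intro x hx
    by_contra hcon
    rw [mem_closedBall, dist_eq_norm, not_le] at hcon
    apply hx
    show b (r⁻¹ • (x - z)) = 0
    apply hb.off
    rw [hn, lt_div_iff₀ hr]
    exact hcon
  refine ⟨HasCompactSupport.of_support_subset_isCompact (isCompact_closedBall z (a' * r)) h1,
    closure_minimal h1 isClosed_closedBall, fun x hx => ?_⟩
  show b (r⁻¹ • (x - z)) = 1
  apply hb.on
  rw [hn, div_le_iff₀ hr]
  exact hx

/-! ### Two integral inequalities -/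

theorem WM2_int {Ω : Set ℂ} (hΩ : IsOpen Ω) {χ u : ℂ → ℝ} (hχ : Continuous χ) (hc : HasCompactSupport χ) (hs : tsupport χ ⊆ Ω)
    (hu : ContinuousOn u Ω) : Integrable (fun z => χ z * u z) := by
  have h1 : Continuous (fun z => χ z * u z) := by
    rw [continuous_iff_continuousAt]
    intro x
    by_cases hx : x ∈ tsupport χ
    · exact hχ.continuousAt.mul (hu.continuousAt (hΩ.mem_nhds (hs hx)))
    · have h2 : (fun z => χ z * u z) =ᶠ[𝓝 x] fun _ => 0 := by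
        filter_upwards [(isClosed_tsupport χ).isOpen_compl.mem_nhds hx] with y hy
        rw [image_eq_zero_of_notMem_tsupport hy, zero_mul]
      exact (continuousAt_congr h2).2 continuousAt_const
  exact h1.integrable_of_hasCompactSupport hc.mul_right

theorem WM2_key {Ω : Set ℂ} (hΩ : IsOpen Ω) {χ g₁ g₂ u₁ u₂ : ℂ → ℝ} {B c : ℝ} (hχ : ContDiff ℝ ∞ χ)
    (hc : HasCompactSupport χ) (hs : tsupport χ ⊆ Ω) (hu₁ : ContinuousOn u₁ Ω) (hu₂ : ContinuousOn u₂ Ω)
    (h₁ : ∫ z, χ z * g₁ z = ∫ z, lap χ z * u₁ z) (h₂ : ∫ z, χ z * g₂ z = ∫ z, lap χ z * u₂ z)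
    (hB : ∀ x ∈ tsupport χ, |u₁ x - u₂ x - c| ≤ B) :
    |(∫ z, χ z * g₁ z) - ∫ z, χ z * g₂ z| ≤ B * ∫ z, |lap χ z| := by
  have hs' : tsupport (lap χ) ⊆ Ω := (P2I.IS3_tsupp χ).trans hs
  have i1 := WM2_int hΩ (WM2_lapc hχ) (WM2_lapcs hc) hs' hu₁
  have i2 := WM2_int hΩ (WM2_lapc hχ) (WM2_lapcs hc) hs' hu₂
  have e1 : (∫ z, χ z * g₁ z) - ∫ z, χ z * g₂ z = ∫ z, lap χ z * (u₁ z - u₂ z - c) := by
    have e2 : (fun z => lap χ z * (u₁ z - u₂ z - c)) = fun z => (lap χ z * u₁ z - lap χ z * u₂ z) - lap χ z * c := by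
      funext z
      ring
    have e3 := integral_sub (i1.sub i2) ((WM2_lapi hχ hc).mul_const c)
    simp only [Pi.sub_apply] at e3
    rw [e2, e3, integral_sub i1 i2, integral_mul_const, WM2_lap0 hχ hc, h₁, h₂, zero_mul, sub_zero]
  rw [e1, ← Real.norm_eq_abs]
  refine le_trans (norm_integral_le_of_norm_le ((WM2_lapi hχ hc).abs.const_mul B) (Eventually.of_forall fun z => ?_)) ?_
  · show ‖lap χ z * (u₁ z - u₂ z - c)‖ ≤ B * |lap χ z|
    by_cases hz : z ∈ tsupport χ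
    · rw [norm_mul, Real.norm_eq_abs, Real.norm_eq_abs, mul_comm]
      exact mul_le_mul_of_nonneg_right (hB z hz) (abs_nonneg _)
    · have : lap χ z = 0 := image_eq_zero_of_notMem_tsupport fun h => hz (P2I.IS3_tsupp χ h)
      rw [this]
      simp
  · rw [integral_const_mul]

theorem WM2_up {χ g : ℂ → ℝ} {S : Set ℂ} (hS : MeasurableSet S) (h0 : ∀ x, 0 ≤ χ x) (h1 : ∀ x ∈ S, χ x = 1)
    (hg : ∀ x, 0 ≤ g x) (hi : Integrable (fun z => χ z * g z)) :
    ∫⁻ x in S, ENNReal.ofReal (g x) ≤ ENNReal.ofReal (∫ z, χ z * g z) := by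
  rw [ofReal_integral_eq_lintegral_ofReal hi (Eventually.of_forall fun x => mul_nonneg (h0 x) (hg x))]
  refine le_trans (le_of_eq (setLIntegral_congr_fun hS fun x hx => ?_)) (setLIntegral_le_lintegral S _)
  show ENNReal.ofReal (g x) = ENNReal.ofReal (χ x * g x)
  rw [h1 x hx, one_mul]

theorem WM2_lo {χ g : ℂ → ℝ} {T : Set ℂ} (hT : MeasurableSet T) (h0 : ∀ x, 0 ≤ χ x) (h1 : ∀ x, χ x ≤ 1)
    (hz : ∀ x, x ∉ T → χ x = 0) (hg : ∀ x, 0 ≤ g x) (hi : Integrable (fun z => χ z * g z)) :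
    ENNReal.ofReal (∫ z, χ z * g z) ≤ ∫⁻ x in T, ENNReal.ofReal (g x) := by
  rw [ofReal_integral_eq_lintegral_ofReal hi (Eventually.of_forall fun x => mul_nonneg (h0 x) (hg x)),
    ← lintegral_indicator hT]
  refine lintegral_mono fun x => ?_
  by_cases hx : x ∈ T
  · rw [indicator_of_mem hx]
    exact ENNReal.ofReal_le_ofReal (mul_le_of_le_one_left (hg x) (h1 x))
  · rw [hz x hx, zero_mul, ENNReal.ofReal_zero]
    exact bot_le

/-! ### Analyticity in the tube -/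

theorem WM2_an {d : ℕ} (f : Endo 2 d) (ι : Fin 2) (c : ℂ) (κ : ℝ) (γ : ℂ → ℂ) (hγ : DifferentiableOn ℂ γ (ball 0 1)) (N : ℕ)
    (i : Fin 3) : AnalyticOnNhd ℂ (fun p => It f N (gp ι c κ γ p) i) {p : ℂ × ℂ | ‖p.1‖ < 1} := by
  have h1 : ∀ p : ℂ × ℂ, ‖p.1‖ < 1 → AnalyticAt ℂ (fun p : ℂ × ℂ => γ p.1) p := by
    intro p hp
    have h2 : AnalyticAt ℂ γ p.1 := hγ.analyticAt (isOpen_ball.mem_nhds (by rwa [mem_ball_zero_iff]))
    exact h2.fun_comp analyticAt_fst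
  have h3 : ∀ (p : ℂ × ℂ), ‖p.1‖ < 1 → ∀ j : Fin 3, AnalyticAt ℂ (fun p => gp ι c κ γ p j) p := by
    intro p hp j
    have a1 : AnalyticAt ℂ (fun p : ℂ × ℂ => c + (κ : ℂ) * p.1) p :=
      analyticAt_const.add (analyticAt_const.mul analyticAt_fst)
    have a2 : AnalyticAt ℂ (fun p : ℂ × ℂ => γ p.1 + p.2) p := (h1 p hp).add analyticAt_snd
    unfold gp cht
    split_ifs
    · fin_cases j
      · exact analyticAt_const
      · exact a1
      · exact a2
    · fin_cases j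
      · exact a1
      · exact analyticAt_const
      · exact a2
  intro p hp
  have h4 := AnalyticAt.aeval_mvPolynomial (A := ℂ) (B := ℂ) (fun j => h3 p hp j) (iter f.F N i)
  have h5 : (fun p => It f N (gp ι c κ γ p) i) = fun z => (aeval fun j => gp ι c κ γ z j) (iter f.F N i) := by
    funext z
    rw [MvPolynomial.aeval_eq_eval]
    rfl
  rw [h5]
  exact h4

/-! ### The row -/

theorem WM2 (hWM1 : WM1_stmt) : WM2_stmt := by
  intro d f U hd τ κ C0 α hτ hκ hκ' hW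
  obtain ⟨b, hb⟩ := WM2_ex 1 (3 / 2) (by norm_num) (by norm_num)
  obtain ⟨b', hb'⟩ := WM2_ex (9 / 10) (19 / 20) (by norm_num) (by norm_num)
  set k : ℝ := ∫ ξ, |lap b ξ| with hk
  set k' : ℝ := ∫ ξ, |lap b' ξ| with hk'
  have hk0 : 0 ≤ k := integral_nonneg fun x => abs_nonneg _
  have hk0' : 0 ≤ k' := integral_nonneg fun x => abs_nonneg _
  have hC0 : 0 ≤ C0 := by linarith [hW.c1]
  have hd0 : (0 : ℝ) < d := by exact_mod_cast (by omega : 0 < d)
  refine ⟨2 * (C0 * (k + k')) + 1, by positivity, ?_⟩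
  intro ι c γ hT n N v v' hv hv'
  have hvb : v ∈ ball (0 : ℂ) τ := by rwa [mem_ball_zero_iff]
  have hvb' : v' ∈ ball (0 : ℂ) τ := by rwa [mem_ball_zero_iff]
  obtain ⟨hN1, hN2, hN3, hN4⟩ := hWM1 d f U hd τ κ C0 α hτ hκ hκ' hW ι c γ hT N
  obtain ⟨hn1, -, hn3, hn4⟩ := hWM1 d f U hd τ κ C0 α hτ hκ hκ' hW ι c γ hT n
  -- continuity of the densities
  have hgN : ∀ w : ℂ, ‖w‖ < τ → ContinuousOn (fun ξ => gt f N ι c κ γ (ξ, w)) (ball 0 1) := by
    intro w hw
    refine hN3.comp (Continuous.prodMk_left w).continuousOn fun ξ hξ => ?_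
    exact ⟨by simpa using hξ, hw⟩
  have hgn : ∀ w : ℂ, ‖w‖ < τ → ContinuousOn (fun ξ => gt f n ι c κ γ (ξ, w)) (ball 0 1) := by
    intro w hw
    refine hn3.comp (Continuous.prodMk_left w).continuousOn fun ξ hξ => ?_
    exact ⟨by simpa using hξ, hw⟩
  have huN : ContinuousOn (fun ξ => un f N (gp ι c κ γ (ξ, v))) (ball 0 1) := (hN1 v hvb).2.1.continuousOn
  have hun : ContinuousOn (fun ξ => un f n (gp ι c κ γ (ξ, v'))) (ball 0 1) := (hn1 v' hvb').2.1.continuousOn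
  have hlv : ∀ p ∈ P2U.TB 1 τ, |un f N (gp ι c κ γ p) - un f n (gp ι c κ γ p)| ≤
      C0 * (1 / (d : ℝ) ^ n + 1 / (d : ℝ) ^ N) := by
    intro p hp
    have e1 : (0 : ℝ) ≤ 1 / (d : ℝ) ^ n := by positivity
    have e2 : (0 : ℝ) ≤ 1 / (d : ℝ) ^ N := by positivity
    rcases le_total n N with h | h
    · have := hW.lv ι c γ hT n N h p hp
      rw [div_eq_mul_one_div] at this
      nlinarith
    · have := hW.lv ι c γ hT N n h p hp
      rw [abs_sub_comm, div_eq_mul_one_div] at this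
      nlinarith
  refine ⟨fun z r hz hr hr' => ?_, ?_, ?_⟩
  · obtain ⟨hc, hs, hon⟩ := WM2_mvc hb z hr
    have hsm := WM2_mvd hb.sm z r
    have hi := WM2_mvi hb.sm z hr
    have hsub : tsupport (WM2_mv b z r) ⊆ ball 0 (3 / 4) := by
      intro x hx
      have h1 := hs hx
      rw [mem_closedBall, dist_eq_norm] at h1
      rw [mem_ball_zero_iff]
      have h2 : ‖x‖ ≤ ‖x - z‖ + ‖z‖ := by
        have := norm_add_le (x - z) z
        rwa [sub_add_cancel] at this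
      linarith
    have hsub1 : tsupport (WM2_mv b z r) ⊆ ball 0 1 := hsub.trans (ball_subset_ball (by norm_num))
    have h0 : ∀ x, 0 ≤ WM2_mv b z r x := fun x => hb.p0 _
    have h1 : ∀ x, WM2_mv b z r x ≤ 1 := fun x => hb.p1 _
    have hint : Integrable (fun ξ => WM2_mv b z r ξ * gt f N ι c κ γ (ξ, v)) :=
      WM2_int isOpen_ball hsm.continuous hc hsub1 (hgN v hv)
    have hint' : Integrable (fun ξ => WM2_mv b z r ξ * gt f n ι c κ γ (ξ, v')) :=
      WM2_int isOpen_ball hsm.continuous hc hsub1 (hgn v' hv')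
    have hup : ms f N ι c κ γ v (ball z r) ≤ ENNReal.ofReal (∫ ξ, WM2_mv b z r ξ * gt f N ι c κ γ (ξ, v)) := by
      unfold ms
      refine WM2_up measurableSet_ball h0 (fun x hx => hon x ?_) (fun x => hN4 _) hint
      rw [mem_ball, dist_eq_norm] at hx
      rw [one_mul]
      exact hx.le
    have ibN := (hN1 v hvb).2.2 _ hsm hc hsub1
    have ibn := (hn1 v' hvb').2.2 _ hsm hc hsub1
    constructor
    · -- (1)
      refine hup.trans (ENNReal.ofReal_le_ofReal ?_)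
      have hB : ∀ x ∈ tsupport (WM2_mv b z r), |un f N (gp ι c κ γ (x, v)) - 0 - un f N (gp ι c κ γ (z, v))| ≤
          2 * (C0 * r ^ α) := by
        intro x hx
        rw [sub_zero]
        have hz' : (z, v) ∈ P2U.TB (3 / 4) τ := ⟨by show ‖z‖ < 3 / 4; linarith, hv⟩
        have hx' : (x, v) ∈ P2U.TB (3 / 4) τ := ⟨by have := hsub hx; rwa [mem_ball_zero_iff] at this, hv⟩
        have h2 := hW.ho ι c γ hT N _ hx' _ hz'
        have h3 : ‖(x, v) - (z, v)‖ ≤ 2 * r := by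
          rw [Prod.mk_sub_mk, sub_self, Prod.norm_mk, norm_zero, max_eq_left (norm_nonneg _)]
          have h4 := hs hx
          rw [mem_closedBall, dist_eq_norm] at h4
          linarith
        refine h2.trans ?_
        have h5 : ‖(x, v) - (z, v)‖ ^ α ≤ 2 * r ^ α := by
          refine (Real.rpow_le_rpow (norm_nonneg _) h3 hW.a0.le).trans ?_
          rw [Real.mul_rpow (by norm_num) hr.le]
          refine mul_le_mul_of_nonneg_right ?_ (Real.rpow_nonneg hr.le _)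
          calc (2 : ℝ) ^ α ≤ 2 ^ (1 : ℝ) := Real.rpow_le_rpow_of_exponent_le (by norm_num) hW.a1
            _ = 2 := Real.rpow_one 2
        nlinarith
      have h6 := WM2_key (g₁ := fun ξ => gt f N ι c κ γ (ξ, v)) (g₂ := fun _ => 0) (u₂ := fun _ => 0) isOpen_ball hsm hc
        hsub1 huN continuousOn_const ibN (by simp) hB
      simp only [mul_zero, integral_zero, sub_zero] at h6
      refine (le_abs_self _).trans (h6.trans ?_)
      rw [hi, ← hk]
      have h7 : 0 ≤ r ^ α := Real.rpow_nonneg hr.le _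
      have h8 : 0 ≤ C0 * k' * r ^ α := by positivity
      nlinarith
    · -- (2)
      have hB : ∀ x ∈ tsupport (WM2_mv b z r), |un f N (gp ι c κ γ (x, v)) - un f n (gp ι c κ γ (x, v')) - 0| ≤
          C0 * (1 / (d : ℝ) ^ n + 1 / (d : ℝ) ^ N + ‖v - v'‖ ^ α) := by
        intro x hx
        rw [sub_zero]
        have hx0 : ‖x‖ < 3 / 4 := by have := hsub hx; rwa [mem_ball_zero_iff] at this
        have h2 := hW.ho ι c γ hT N (x, v) ⟨hx0, hv⟩ (x, v') ⟨hx0, hv'⟩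
        have h3 : ‖(x, v) - (x, v')‖ = ‖v - v'‖ := by
          rw [Prod.mk_sub_mk, sub_self, Prod.norm_mk, norm_zero, max_eq_right (norm_nonneg _)]
        rw [h3] at h2
        have h4 := hlv (x, v') ⟨by show ‖x‖ < 1; linarith, hv'⟩
        have h5 : |un f N (gp ι c κ γ (x, v)) - un f n (gp ι c κ γ (x, v'))| ≤
            |un f N (gp ι c κ γ (x, v)) - un f N (gp ι c κ γ (x, v'))| +
              |un f N (gp ι c κ γ (x, v')) - un f n (gp ι c κ γ (x, v'))| := abs_sub_le _ _ _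
        have h6 : C0 * (1 / (d : ℝ) ^ n + 1 / (d : ℝ) ^ N + ‖v - v'‖ ^ α) =
            C0 * (1 / (d : ℝ) ^ n + 1 / (d : ℝ) ^ N) + C0 * ‖v - v'‖ ^ α := by ring
        rw [h6]
        linarith
      have h6 := WM2_key (g₁ := fun ξ => gt f N ι c κ γ (ξ, v)) (g₂ := fun ξ => gt f n ι c κ γ (ξ, v')) isOpen_ball hsm hc
        hsub1 huN hun ibN ibn hB
      rw [hi, ← hk] at h6
      have h7 : ENNReal.ofReal (∫ ξ, WM2_mv b z r ξ * gt f n ι c κ γ (ξ, v')) ≤ ms f n ι c κ γ v' (ball z (2 * r)) := by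
        unfold ms
        refine WM2_lo measurableSet_ball h0 h1 (fun x hx => ?_) (fun x => hn4 _) hint'
        apply image_eq_zero_of_notMem_tsupport
        intro h8
        apply hx
        have h9 := hs h8
        rw [mem_closedBall] at h9
        rw [mem_ball]
        linarith
      refine hup.trans ?_
      have h8 : 0 ≤ ∫ ξ, WM2_mv b z r ξ * gt f n ι c κ γ (ξ, v') := integral_nonneg fun x => mul_nonneg (h0 x) (hn4 _)
      have h10 : (0 : ℝ) ≤ 1 / (d : ℝ) ^ n + 1 / (d : ℝ) ^ N + ‖v - v'‖ ^ α := by positivity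
      have h9 : (∫ ξ, WM2_mv b z r ξ * gt f N ι c κ γ (ξ, v)) ≤ (∫ ξ, WM2_mv b z r ξ * gt f n ι c κ γ (ξ, v')) +
          (2 * (C0 * (k + k')) + 1) * (1 / (d : ℝ) ^ n + 1 / (d : ℝ) ^ N + ‖v - v'‖ ^ α) := by
        have h11 := (le_abs_self _).trans h6
        have h12 : 0 ≤ (C0 * k + 2 * (C0 * k') + 1) * (1 / (d : ℝ) ^ n + 1 / (d : ℝ) ^ N + ‖v - v'‖ ^ α) := by positivity
        nlinarith
      refine (ENNReal.ofReal_le_ofReal h9).trans ?_
      rw [ENNReal.ofReal_add h8 (by positivity)]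
      exact add_le_add h7 le_rfl
  · -- (3)
    obtain ⟨hc, hs, hon⟩ := WM2_mvc hb' 0 one_pos
    have hsm := WM2_mvd hb'.sm 0 1
    have hi := WM2_mvi hb'.sm 0 one_pos
    have hsub1 : tsupport (WM2_mv b' 0 1) ⊆ ball 0 1 := hs.trans (closedBall_subset_ball (by norm_num))
    have h0 : ∀ x, 0 ≤ WM2_mv b' 0 1 x := fun x => hb'.p0 _
    have hint : Integrable (fun ξ => WM2_mv b' 0 1 ξ * gt f N ι c κ γ (ξ, v)) :=
      WM2_int isOpen_ball hsm.continuous hc hsub1 (hgN v hv)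
    have hup : ms f N ι c κ γ v (ball 0 (9 / 10)) ≤ ENNReal.ofReal (∫ ξ, WM2_mv b' 0 1 ξ * gt f N ι c κ γ (ξ, v)) := by
      unfold ms
      refine WM2_up measurableSet_ball h0 (fun x hx => hon x ?_) (fun x => hN4 _) hint
      rw [mem_ball, dist_eq_norm] at hx
      rw [mul_one]
      exact hx.le
    refine hup.trans (ENNReal.ofReal_le_ofReal ?_)
    have ibN := (hN1 v hvb).2.2 _ hsm hc hsub1
    have hB : ∀ x ∈ tsupport (WM2_mv b' 0 1), |un f N (gp ι c κ γ (x, v)) - 0 - 0| ≤ C0 := by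
      intro x hx
      rw [sub_zero, sub_zero]
      refine (hW.nz ι c γ hT N (x, v) ⟨?_, hv⟩).2.2.2
      have := hsub1 hx
      rwa [mem_ball_zero_iff] at this
    have h6 := WM2_key (g₁ := fun ξ => gt f N ι c κ γ (ξ, v)) (g₂ := fun _ => 0) (u₂ := fun _ => 0) isOpen_ball hsm hc
      hsub1 huN continuousOn_const ibN (by simp) hB
    simp only [mul_zero, integral_zero, sub_zero] at h6
    refine (le_abs_self _).trans (h6.trans ?_)
    rw [hi, ← hk']
    nlinarith [mul_nonneg hC0 hk0, mul_nonneg hC0 hk0']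
  · -- (4)
    intro ξ hξ
    rw [mem_ball_zero_iff] at hξ
    have hξ1 : ξ ∈ ball (0 : ℂ) 1 := by rw [mem_ball_zero_iff]; linarith
    obtain ⟨hc, hs, hon⟩ := WM2_mvc hb' 0 hτ
    have hsm := WM2_mvd hb'.sm 0 τ
    have hi := WM2_mvi hb'.sm 0 hτ
    have hsub1 : tsupport (WM2_mv b' 0 τ) ⊆ ball 0 τ :=
      hs.trans (closedBall_subset_ball (by nlinarith))
    have h0 : ∀ x, 0 ≤ WM2_mv b' 0 τ x := fun x => hb'.p0 _
    set G : ℂ → ℝ := fun v => (1 / 2) * Complex.normSq (w2 (gP f N ι c κ γ) (gQ f N ι c κ γ) (ξ, v)) *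
      om (gP f N ι c κ γ) (gQ f N ι c κ γ) (ξ, v) / (d : ℝ) ^ N with hG
    have hG0 : ∀ v, 0 ≤ G v := by
      intro v
      rw [hG]
      have : 0 ≤ om (gP f N ι c κ γ) (gQ f N ι c κ γ) (ξ, v) := by
        unfold om
        positivity
      have h2 := Complex.normSq_nonneg (w2 (gP f N ι c κ γ) (gQ f N ι c κ γ) (ξ, v))
      positivity
    -- continuity
    have hcP : AnalyticOnNhd ℂ (gP f N ι c κ γ) {p : ℂ × ℂ | ‖p.1‖ < 1} := WM2_an f ι c κ γ hT.hd N 0
    have hcQ : AnalyticOnNhd ℂ (gQ f N ι c κ γ) {p : ℂ × ℂ | ‖p.1‖ < 1} := WM2_an f ι c κ γ hT.hd N 1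
    have hξ2 : ‖ξ‖ < 1 := by linarith
    have hmk : ∀ w : ℂ, ContinuousAt (fun w : ℂ => (ξ, w)) w := fun w => (Continuous.prodMk_right ξ).continuousAt
    have hP0 : ContinuousOn (fun w => gP f N ι c κ γ (ξ, w)) (ball 0 τ) := fun w hw =>
      ((hcP (ξ, w) hξ2).continuousAt.comp (hmk w)).continuousWithinAt
    have hQ0 : ContinuousOn (fun w => gQ f N ι c κ γ (ξ, w)) (ball 0 τ) := fun w hw =>
      ((hcQ (ξ, w) hξ2).continuousAt.comp (hmk w)).continuousWithinAt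
    have hP1 : ContinuousOn (fun w => fderiv ℂ (gP f N ι c κ γ) (ξ, w) (0, 1)) (ball 0 τ) := fun w hw =>
      (((hcP (ξ, w) hξ2).fderiv.continuousAt.comp (hmk w)).clm_apply continuousAt_const).continuousWithinAt
    have hQ1 : ContinuousOn (fun w => fderiv ℂ (gQ f N ι c κ γ) (ξ, w) (0, 1)) (ball 0 τ) := fun w hw =>
      (((hcQ (ξ, w) hξ2).fderiv.continuousAt.comp (hmk w)).clm_apply continuousAt_const).continuousWithinAt
    have hpos : ∀ w ∈ ball (0 : ℂ) τ, 0 < Complex.normSq (gP f N ι c κ γ (ξ, w)) + Complex.normSq (gQ f N ι c κ γ (ξ, w)) := by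
      intro w hw
      rw [mem_ball_zero_iff] at hw
      exact (hW.nz ι c γ hT N (ξ, w) ⟨hξ2, hw⟩).1
    have hS : ContinuousOn (fun w => Complex.normSq (gP f N ι c κ γ (ξ, w)) + Complex.normSq (gQ f N ι c κ γ (ξ, w)))
        (ball 0 τ) := (Complex.continuous_normSq.comp_continuousOn hP0).add (Complex.continuous_normSq.comp_continuousOn hQ0)
    have hGc : ContinuousOn G (ball 0 τ) := by
      rw [hG]
      unfold w2 om
      refine ContinuousOn.div_const (ContinuousOn.mul (continuousOn_const.mul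
        (Complex.continuous_normSq.comp_continuousOn ((hQ0.mul hP1).sub (hP0.mul hQ1)))) ?_) _
      exact (hS.pow 2).inv₀ fun w hw => (pow_pos (hpos w hw) 2).ne'
    have hUc : ContinuousOn (fun w => un f N (gp ι c κ γ (ξ, w))) (ball 0 τ) := by
      unfold un pq
      refine ContinuousOn.div_const (continuousOn_const.mul ?_) _
      exact ContinuousOn.log hS fun w hw => (hpos w hw).ne'
    have hint : Integrable (fun w => WM2_mv b' 0 τ w * G w) := WM2_int isOpen_ball hsm.continuous hc hsub1 hGc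
    have hup : ∫⁻ w in ball (0 : ℂ) (9 / 10 * τ), ENNReal.ofReal (G w) ≤ ENNReal.ofReal (∫ w, WM2_mv b' 0 τ w * G w) := by
      refine WM2_up measurableSet_ball h0 (fun x hx => hon x ?_) hG0 hint
      rw [mem_ball, dist_eq_norm] at hx
      exact hx.le
    refine hup.trans (ENNReal.ofReal_le_ofReal ?_)
    have ib := hN2 ξ hξ1 _ hsm hc hsub1
    have hB : ∀ x ∈ tsupport (WM2_mv b' 0 τ), |un f N (gp ι c κ γ (ξ, x)) - 0 - 0| ≤ C0 := by
      intro x hx
      rw [sub_zero, sub_zero]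
      refine (hW.nz ι c γ hT N (ξ, x) ⟨hξ2, ?_⟩).2.2.2
      have := hsub1 hx
      rwa [mem_ball_zero_iff] at this
    have h6 := WM2_key (g₁ := G) (g₂ := fun _ => 0) (u₂ := fun _ => 0) isOpen_ball hsm hc
      hsub1 hUc continuousOn_const ib (by simp) hB
    simp only [mul_zero, integral_zero, sub_zero] at h6
    refine (le_abs_self _).trans (h6.trans ?_)
    rw [hi, ← hk']
    nlinarith [mul_nonneg hC0 hk0, mul_nonneg hC0 hk0']

end Pool.Agent.P2W
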